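import Pool.Agent.Y386.IR.Stm2

/-! IR-ALPHA: triangle-free graphs with small independent sets have a large imperfection ratio. -/

set_option autoImplicit false

namespace Pool.Agent.Y540.IR

open Pool.Agent.NPC Pool.Agent.H692R2 Pool.Agent.Y386.IR Finset

theorem t_ALPHA : S_ALPHA := by
  classical
  intro V _ G α hG hα hV hind
  have h1 : fracChi (replicated G fun _ => 1) / (replicated G fun _ => 1).cliqueNum ≤ imp G := by
    refine le_csSup (imp_bddAbove G) ⟨fun _ => 1, fun h => ?_, rfl⟩
    obtain ⟨v⟩ := hV
    simpa using congrFun h v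
  have hfst : ∀ a b : Σ _ : V, Fin 1, a.1 = b.1 → a = b := by
    rintro ⟨a, i⟩ ⟨b, j⟩ h
    simp only at h
    subst h
    rw [Subsingleton.elim i j]
  have hω : (replicated G fun _ => 1).cliqueNum ≤ 2 := by
    obtain ⟨s, hs⟩ := (replicated G fun _ => 1).exists_isNClique_cliqueNum
    by_contra hlt
    push Not at hlt
    have hinj : Set.InjOn (fun a : Σ _ : V, Fin 1 => a.1) (s : Set (Σ _ : V, Fin 1)) :=
      fun a _ b _ h => hfst a b h
    have h3 : G.IsNClique (replicated G fun _ => 1).cliqueNum (s.image Sigma.fst) := by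
      refine ⟨?_, by rw [Finset.card_image_of_injOn hinj]; exact hs.2⟩
      intro a ha b hb hab
      simp only [Finset.coe_image, Set.mem_image, Finset.mem_coe] at ha hb
      obtain ⟨a', ha', rfl⟩ := ha
      obtain ⟨b', hb', rfl⟩ := hb
      rcases hs.1 ha' hb' (fun h => hab (by rw [h])) with ⟨h, _⟩ | h
      · exact absurd h hab
      · exact h
    exact (hG.mono hlt) _ h3
  have hω0 : 0 < (replicated G fun _ => 1).cliqueNum := by
    obtain ⟨v⟩ := hV
    have := sum_le_cliqueNum G (fun _ => 1) {v} (by simp)
    simp only [Finset.sum_singleton] at this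
    exact this
  rw [div_le_iff₀ (by exact_mod_cast hω0)] at h1
  have h3 := card_le_mul_fracChi (H := replicated G fun _ => 1) α (by
    intro I hI
    have hinj : Set.InjOn (fun a : Σ _ : V, Fin 1 => a.1) (I : Set (Σ _ : V, Fin 1)) :=
      fun a _ b _ h => hfst a b h
    have h4 := hind (I.image Sigma.fst) (by
      intro a ha b hb hab hadj
      simp only [Finset.coe_image, Set.mem_image, Finset.mem_coe] at ha hb
      obtain ⟨a', ha', rfl⟩ := ha
      obtain ⟨b', hb', rfl⟩ := hb
      exact hI ha' hb' (fun h => hab (by rw [h])) (Or.inr hadj))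
    rw [Finset.card_image_of_injOn hinj] at h4
    exact h4)
  have h5 : Fintype.card (Σ _ : V, Fin 1) = Fintype.card V := by simp
  rw [h5] at h3
  have hα' : (0 : ℝ) < α := by exact_mod_cast hα
  have hω' : ((replicated G fun _ => 1).cliqueNum : ℝ) ≤ 2 := by exact_mod_cast hω
  have hω0' : (0 : ℝ) < (replicated G fun _ => 1).cliqueNum := by exact_mod_cast hω0
  have hc : (0 : ℝ) < Fintype.card V := by exact_mod_cast Fintype.card_pos
  rw [div_le_iff₀ (by positivity)]
  have hfc : 0 < fracChi (replicated G fun _ => 1) := by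
    by_contra hle
    push Not at hle
    have := mul_nonpos_of_nonneg_of_nonpos hα'.le hle
    linarith
  have himp : 0 < imp G := by
    by_contra hle
    push Not at hle
    have := mul_nonpos_of_nonpos_of_nonneg hle hω0'.le
    linarith
  calc (Fintype.card V : ℝ) ≤ α * fracChi (replicated G fun _ => 1) := h3
    _ ≤ α * (imp G * (replicated G fun _ => 1).cliqueNum) := mul_le_mul_of_nonneg_left h1 hα'.le
    _ ≤ α * (imp G * 2) :=
        mul_le_mul_of_nonneg_left (mul_le_mul_of_nonneg_left hω' himp.le) hα'.le
    _ = imp G * (2 * α) := by ring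

end Pool.Agent.Y540.IR
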